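import Pool.Agent.H84.KB.Q
import Pool.Agent.H14.KB.R5
import Pool.Agent.H62.MK.ColFin
import Pool.Agent.H12.KB.Abel
import Pool.Agent.H15.KS.Fin1

/-!
# Bridge between the two forms of the statement: the Gersten complex
-/

open CategoryTheory CategoryTheory.Limits AlgebraicGeometry TopologicalSpace Opposite
open Pool.Agent.H15 Pool.Agent.H84.KEW

universe u

namespace Pool.Agent.H84.KB

noncomputable section

variable (X : Scheme.{u}) [IsNoetherian X] (d s : ℕ)

/-- The terms of the Gersten complex. -/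
def isoC : KS.C X d s ≅ Pool.Agent.H17.KW.D X d s where
  hom := ⟨(KS.isoD X d s).hom⟩
  inv := ⟨(KS.isoD X d s).inv⟩
  hom_inv_id := Sheaf.hom_ext (KS.isoD X d s).hom_inv_id
  inv_hom_id := Sheaf.hom_ext (KS.isoD X d s).inv_hom_id

lemma isoC_hom_app (U : (Opens X.toTopCat)ᵒᵖ) (f : (KS.C X d s).obj.obj U) :
    (isoC X d s).hom.hom.app U f = f := rfl

lemma isoC_inv_app (U : (Opens X.toTopCat)ᵒᵖ) (f : (Pool.Agent.H17.KW.D X d s).obj.obj U) :
    (isoC X d s).inv.hom.app U f = f := rfl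

/-- The differential of the Gersten complex. -/
def dC' : KS.C X d (s + 1) ⟶ KS.C X d s :=
  (isoC X d (s + 1)).hom ≫ Pool.Agent.H17.KW.dD X d s ≫ (isoC X d s).inv

/-- The underlying family of a section. -/
def fam (U : X.Opens) (f : KS.secs (KS.C X d s) U) :
    Π₀ v : Pool.Agent.H17.KW.Pts X d s, Pool.Agent.H62.MK.MilnorK (Pool.Agent.H17.KW.kap X v.1) s :=
  (show KS.supp (KS.KP X d s) (KS.inU X d s U) from f).1

lemma coord_eq (U : X.Opens) (f : KS.secs (KS.C X d s) U) (w : KS.Pt X d s) :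
    KS.ap (KS.coord (KS.KP X d s) (KS.inU X d s U) w) f = fam X d s U f w := rfl

lemma fam_dC' (U : X.Opens) (f : KS.secs (KS.C X d (s + 1)) U) :
    fam X d s U (KS.ap (KS.onSecs (dC' X d s) U) f) =
      keep (X := X.toTopCat) (fun v : Pool.Agent.H17.KW.Pts X d s => (v.1 : X)) _ U
        (Pool.Agent.H17.KW.dFam X d s (fam X d (s + 1) U f)) := rfl

/-- The differential on families as a sum. -/
lemma dFam_eq_finsum
    (f : Π₀ v : Pool.Agent.H17.KW.Pts X d (s + 1),
      Pool.Agent.H62.MK.MilnorK (Pool.Agent.H17.KW.kap X v.1) (s + 1))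
    (w : Pool.Agent.H17.KW.Pts X d s) :
    Pool.Agent.H17.KW.dFam X d s f w =
      ∑ᶠ v : Pool.Agent.H17.KW.Pts X d (s + 1), Pool.Agent.H17.KW.entry v.1 w.1 s (f v) := by
  classical
  unfold Pool.Agent.H17.KW.dFam
  rw [DFinsupp.liftAddHom_apply, DFinsupp.sumAddHom_apply, DFinsupp.sum, DFinsupp.finsetSum_apply]
  rw [finsum_eq_sum_of_support_subset (s := f.support)]
  · exact Finset.sum_congr rfl fun v _ => Pool.Agent.H62.MK.column_apply X d s v (f v) w
  · intro v hv
    rw [Finset.mem_coe, DFinsupp.mem_support_iff]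
    intro h0
    refine hv ?_
    exact (congrArg (Pool.Agent.H17.KW.entry v.1 w.1 s) h0).trans (map_zero _)

lemma dC'_spec (U : X.Opens) (f : KS.secs (KS.C X d (s + 1)) U) (w : KS.Pt X d s) (hw : w.pt ∈ U) :
    KS.ap (KS.coord (KS.KP X d s) (KS.inU X d s U) w) (KS.ap (KS.onSecs (dC' X d s) U) f) =
      ∑ᶠ v : KS.Pt X d (s + 1), KS.ap (KS.entry X v.pt w.pt s)
        (KS.ap (KS.coord (KS.KP X d (s + 1)) (KS.inU X d (s + 1) U) v) f) := by
  refine (coord_eq X d s U _ w).trans ?_
  refine (congrArg (fun g => g w) (fam_dC' X d s U f)).trans ?_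
  refine (keep_apply_pos (X := X.toTopCat)
    (fun v : Pool.Agent.H17.KW.Pts X d s => (v.1 : X)) _ hw).trans ?_
  refine (dFam_eq_finsum X d s _ w).trans ?_
  refine finsum_congr fun v => ?_
  exact (congrArg (fun g => KS.ap g (fam X d (s + 1) U f v))
    (Pool.Agent.H14.KB.entry_eq X v.1 w.1 s)).symm

theorem dC_eq : KS.dC X d s = dC' X d s := by
  refine Pool.Agent.H12.KB.the_eq (dC'_spec X d s) fun g' h' => ?_
  refine Sheaf.hom_ext (NatTrans.ext (funext fun U => ?_))
  refine AddCommGrpCat.hom_ext (AddMonoidHom.ext fun f => ?_)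
  refine KS.sec_ext (KS.KP X d s) (S := KS.inU X d s U.unop) fun w hw => ?_
  exact (h' U.unop f w hw).trans (dC'_spec X d s U.unop f w hw).symm

/-- The comparison commutes with the differentials. -/
theorem dC_isoC : KS.dC X d s ≫ (isoC X d s).hom =
    (isoC X d (s + 1)).hom ≫ Pool.Agent.H17.KW.dD X d s := by
  rw [dC_eq, dC', Category.assoc, Category.assoc, Iso.inv_hom_id, Category.comp_id]

/-- The augmentation of the Gersten complex. -/
def top' : KS.K X d ⟶ KS.C X d d :=
  (isoK X d).hom ≫ Pool.Agent.H17.KW.topSh X d ≫ (isoC X d d).inv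

lemma top'_spec (U : X.Opens) (a : KS.MK Γ(X, U) d) (v : KS.Pt X d d) (hv : v.pt ∈ U) :
    KS.ap (KS.coord (KS.KP X d d) (KS.inU X d d U) v)
      (KS.ap (KS.onSecs (top' X d) U) (KS.ap (KS.toShf (KS.KPre X d) U) a)) =
      KS.ap (KS.mkMap (X.evaluation U v.pt hv).hom d) a := by
  have h1 : KS.ap (KS.onSecs (top' X d) U) (KS.ap (KS.toShf (KS.KPre X d) U) a) =
      (Pool.Agent.H17.KW.topPre X d).app (op U) a := by
    refine (congrArg (fun y => (Pool.Agent.H17.KW.topSh X d).hom.app (op U) y)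
      (toShf_isoK X d U a)).trans ?_
    have h2 := congrArg (fun m => m.app (op U))
      (toSheafify_sheafifyLift (Opens.grothendieckTopology X.toTopCat)
        (Pool.Agent.H17.KW.topPre X d) (Pool.Agent.H17.KW.D X d d).2)
    exact ConcreteCategory.congr_hom h2 a
  refine (congrArg (fun y => KS.ap (KS.coord (KS.KP X d d) (KS.inU X d d U) v) y) h1).trans ?_
  refine (Pool.Agent.H17.KW.topFam_apply X d U a v).trans ?_
  refine (congrArg (fun g => g a) (Pool.Agent.H17.KW.topVal_of_mem X d U v.1 hv)).trans ?_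
  exact (congrArg (fun g => KS.ap g a) (mkMap_eq (X.evaluation U v.pt hv).hom d)).symm

theorem top_eq : KS.top X d = top' X d := by
  refine Pool.Agent.H12.KB.the_eq (top'_spec X d) fun g' h' => ?_
  refine shf_ext X fun U a => ?_
  refine KS.sec_ext (KS.KP X d d) (S := KS.inU X d d U) fun v hv => ?_
  exact (h' U a v hv).trans (top'_spec X d U a v hv).symm

/-- The comparison commutes with the augmentations. -/
theorem top_isoC : KS.top X d ≫ (isoC X d d).hom =
    (isoK X d).hom ≫ Pool.Agent.H17.KW.topSh X d := by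
  rw [top_eq, top', Category.assoc, Category.assoc, Iso.inv_hom_id, Category.comp_id]

theorem isZero_C (h : d < s) : IsZero (KS.C X d s) := by
  rw [IsZero.iff_id_eq_zero]
  refine Sheaf.hom_ext (NatTrans.ext (funext fun U => ?_))
  refine AddCommGrpCat.hom_ext (AddMonoidHom.ext fun f => ?_)
  refine KS.sec_ext (KS.KP X d s) (S := KS.inU X d s U.unop) fun w _ => ?_
  have h1 := w.2
  have h2 : (s : ℕ∞) ≤ (d : ℕ∞) := h1 ▸ le_add_self
  exact absurd (by exact_mod_cast h2) (not_le.2 h)

variable (e : ℕ)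

/-- The hypothesis of the compact statement is the one of the proof. -/
theorem gersten_iff : KS.Gersten X e ↔ Pool.Agent.H17.KW.Gersten X e := by
  refine (Pool.Agent.H12.KB.isRes_iff fun s hs => isZero_C X (e + 1) s hs).trans ?_
  constructor
  · intro h
    exact Pool.Agent.H12.KB.isRes_of_iso h (isoC X (e + 1)) (dC_isoC X (e + 1)) (isoK X (e + 1))
      (top_isoC X (e + 1))
  · intro h
    refine Pool.Agent.H12.KB.isRes_of_iso h (fun s => (isoC X (e + 1) s).symm)
      (fun s => ?_) (isoK X (e + 1)).symm ?_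
    · rw [Iso.symm_hom, Iso.symm_hom, Iso.comp_inv_eq, Category.assoc, dC_isoC,
        Iso.inv_hom_id_assoc]
    · rw [Iso.symm_hom, Iso.symm_hom, Iso.comp_inv_eq, Category.assoc, top_isoC,
        Iso.inv_hom_id_assoc]

variable {X e}

/-- The divisor of a section of the term before the last. -/
theorem famC_dv (c : KS.secs (KS.C X (e + 1) (0 + 1)) ⊤) :
    KS.famC (KS.dv c) = Pool.Agent.H17.KW.dFam X (e + 1) 0 (KS.famC1 c) := by
  have h1 : KS.dv c = KS.ap (KS.onSecs (dC' X (e + 1) 0) ⊤) c := by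
    rw [← dC_eq]
    rfl
  rw [h1]
  refine (fam_dC' X (e + 1) 0 ⊤ c).trans ?_
  refine DFinsupp.ext fun w => ?_
  exact keep_apply_pos (X := X.toTopCat)
    (fun v : Pool.Agent.H17.KW.Pts X (e + 1) 0 => (v.1 : X)) _ trivial

end

end Pool.Agent.H84.KB
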