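import Pool.Agent.H15.KS.Defs2
import Pool.Agent.H17.KW.ResMap

/-!
# Bridge between the two forms of the statement: the sheaves `K^M / q` and the reduction maps
-/

open CategoryTheory CategoryTheory.Limits AlgebraicGeometry TopologicalSpace Opposite
open Pool.Agent.H15

universe u

namespace Pool.Agent.H84.KB

noncomputable section

section ring

variable {R S : Type u} [CommRing R] [CommRing S]

lemma mkMap_eq (f : R →+* S) (n : ℕ) :
    KS.mkMap f n = AddCommGrpCat.ofHom (Pool.Agent.H62.MK.map f n) :=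
  KS.MK_ext fun a => (KS.mkMap_sy f a).trans (Pool.Agent.H62.MK.map_sym f a).symm

/-- The two functors are isomorphic (with identity components). -/
def isoMKF (n : ℕ) : KS.MKF.{u} n ≅ Pool.Agent.H17.KW.MilnorFunctor.{u} n :=
  NatIso.ofComponents (fun R => show KS.MK R n ≅ AddCommGrpCat.of (Pool.Agent.H62.MK.MilnorK R n)
    from Iso.refl _) (fun {R S} f => by
      have h : (KS.MKF n).map f = (Pool.Agent.H17.KW.MilnorFunctor n).map f := mkMap_eq f.hom n
      refine (Category.comp_id _).trans (h.trans (Category.id_comp _).symm))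

end ring

section sheaf

variable (X : Scheme.{u}) (n : ℕ)

/-- The two presheaves are isomorphic (with identity components). -/
def isoPre : KS.KPre X n ≅ Pool.Agent.H17.KW.KPre X n :=
  Functor.isoWhiskerLeft X.presheaf (isoMKF n)

lemma isoPre_app (U : (Opens X.toTopCat)ᵒᵖ) (a : KS.MK Γ(X, U.unop) n) :
    (isoPre X n).hom.app U a = a := rfl

/-- The two Milnor K-sheaves are isomorphic. -/
def isoK : KS.K X n ≅ Pool.Agent.H17.KW.KSh X n :=
  (presheafToSheaf (Opens.grothendieckTopology X.toTopCat) AddCommGrpCat.{u}).mapIso (isoPre X n)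

/-- A morphism from the associated sheaf is determined by its values on the sections of the
presheaf. -/
lemma shf_ext {P : X.Opensᵒᵖ ⥤ AddCommGrpCat.{u}} {G : KS.AbSh X} {g g' : KS.shf P ⟶ G}
    (h : ∀ (U : X.Opens) (a : P.obj (op U)),
      KS.ap (KS.onSecs g U) (KS.ap (KS.toShf P U) a) =
        KS.ap (KS.onSecs g' U) (KS.ap (KS.toShf P U) a)) : g = g' := by
  refine Sheaf.hom_ext ?_
  refine sheafify_hom_ext (Opens.grothendieckTopology X.toTopCat) _ _ G.2 ?_
  refine NatTrans.ext (funext fun U => ?_)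
  refine AddCommGrpCat.hom_ext (AddMonoidHom.ext fun a => ?_)
  exact h U.unop a

/-- The value of the isomorphism on the sections of the presheaf. -/
lemma toShf_isoK (U : X.Opens) (a : KS.MK Γ(X, U) n) :
    (isoK X n).hom.hom.app (op U) ((KS.toShf (KS.KPre X n) U) a) =
      (toSheafify (Opens.grothendieckTopology X.toTopCat) (Pool.Agent.H17.KW.KPre X n)).app
        (op U) a := by
  have h := toSheafify_naturality (Opens.grothendieckTopology X.toTopCat) (isoPre X n).hom
  have h1 := congrArg (fun m => m.app (op U)) h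
  exact (ConcreteCategory.congr_hom h1 a).symm

variable (q : ℕ)

/-- The projection `K^M_n ⟶ K^M_n / q`. -/
def modProj : Pool.Agent.H17.KW.KSh X n ⟶ Pool.Agent.H17.KW.KModSh X q n :=
  (presheafToSheaf (Opens.grothendieckTopology X.toTopCat) AddCommGrpCat.{u}).map
    (Functor.whiskerLeft X.presheaf (Pool.Agent.H17.KW.MilnorModProj q n))

lemma modProj_toSheafify (U : X.Opens) (a : Pool.Agent.H62.MK.MilnorK Γ(X, U) n) :
    (modProj X n q).hom.app (op U)
      ((toSheafify (Opens.grothendieckTopology X.toTopCat) (Pool.Agent.H17.KW.KPre X n)).app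
        (op U) a) =
      (toSheafify (Opens.grothendieckTopology X.toTopCat) (Pool.Agent.H17.KW.KModPre X q n)).app
        (op U) (Pool.Agent.H17.KW.toModQ q _ a) := by
  have h := toSheafify_naturality (Opens.grothendieckTopology X.toTopCat)
    (Functor.whiskerLeft X.presheaf (Pool.Agent.H17.KW.MilnorModProj q n))
  have h1 := congrArg (fun m => m.app (op U)) h
  exact (ConcreteCategory.congr_hom h1 a).symm

lemma nsmul_comp_modProj :
    (q • 𝟙 (KS.K X n)) ≫ ((isoK X n).hom ≫ modProj X n q) = 0 := by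
  have h := Pool.Agent.H17.KW.KModSh_nsmul X q n
  rw [Preadditive.nsmul_comp, Category.id_comp]
  have h2 : (isoK X n).hom ≫ modProj X n q =
      ((isoK X n).hom ≫ modProj X n q) ≫ 𝟙 (Pool.Agent.H17.KW.KModSh X q n) :=
    (Category.comp_id _).symm
  rw [h2, ← Preadditive.comp_nsmul, h, comp_zero]

/-- The morphism from `K^M_n / q` as a cokernel. -/
def homKq : KS.Kq X q n ⟶ Pool.Agent.H17.KW.KModSh X q n :=
  cokernel.desc (q • 𝟙 (KS.K X n)) ((isoK X n).hom ≫ modProj X n q) (nsmul_comp_modProj X n q)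

lemma toKq_homKq : KS.toKq X q n ≫ homKq X n q = (isoK X n).hom ≫ modProj X n q :=
  cokernel.π_desc _ _ _

lemma toKq_nsmul (U : X.Opens) (a : KS.MK Γ(X, U) n) :
    (KS.toKq X q n).hom.app (op U) ((KS.toShf (KS.KPre X n) U) (q • a)) = 0 := by
  have h1 : (KS.toShf (KS.KPre X n) U) (q • a) = q • (KS.toShf (KS.KPre X n) U) a :=
    map_nsmul (KS.toShf (KS.KPre X n) U).hom q a
  have h2 := Pool.Agent.H17.KW.nsmul_app (F := KS.K X n) q (op U) ((KS.toShf (KS.KPre X n) U) a)
  have h3 : (q • 𝟙 (KS.K X n)) ≫ KS.toKq X q n = 0 := cokernel.condition _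
  have h4 := congrArg (fun m => m.hom.app (op U)) h3
  have h5 := ConcreteCategory.congr_hom h4 ((KS.toShf (KS.KPre X n) U) a)
  exact (congrArg ((KS.toKq X q n).hom.app (op U)) (h1.trans h2.symm)).trans h5

/-- The map of presheaves `K^M_n(O(U)) / q → (K^M_n / q)(U)`. -/
def kapPre : Pool.Agent.H17.KW.KModPre X q n ⟶ (KS.Kq X q n).obj where
  app U := AddCommGrpCat.ofHom (QuotientAddGroup.lift
    (nsmulAddMonoidHom q : Pool.Agent.H62.MK.MilnorK Γ(X, U.unop) n →+ _).range
    ((KS.toShf (KS.KPre X n) U.unop) ≫ (KS.toKq X q n).hom.app U).hom (by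
      rintro _ ⟨a, rfl⟩
      exact toKq_nsmul X n q U.unop a))
  naturality {U V} g := by
    refine AddCommGrpCat.hom_ext (AddMonoidHom.ext fun x => ?_)
    obtain ⟨a, rfl⟩ := Pool.Agent.H17.KW.toModQ_surjective q _ x
    have h1 := (toSheafify (Opens.grothendieckTopology X.toTopCat) (KS.KPre X n)).naturality g
    have h2 := ConcreteCategory.congr_hom h1 a
    have h3 := (KS.toKq X q n).hom.naturality g
    have h4 := ConcreteCategory.congr_hom h3 ((KS.toShf (KS.KPre X n) U.unop) a)
    refine Eq.trans ?_ h4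
    refine congrArg ((KS.toKq X q n).hom.app V) ?_
    refine Eq.trans ?_ h2
    refine congrArg ((toSheafify (Opens.grothendieckTopology X.toTopCat) (KS.KPre X n)).app V) ?_
    exact (ConcreteCategory.congr_hom (mkMap_eq (X.presheaf.map g).hom n) a).symm

lemma kapPre_app (U : X.Opens) (a : KS.MK Γ(X, U) n) :
    (kapPre X n q).app (op U) (Pool.Agent.H17.KW.toModQ q _ a) =
      (KS.toKq X q n).hom.app (op U) ((KS.toShf (KS.KPre X n) U) a) := rfl

/-- The inverse. -/
def invKq : Pool.Agent.H17.KW.KModSh X q n ⟶ KS.Kq X q n :=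
  ⟨sheafifyLift (Opens.grothendieckTopology X.toTopCat) (kapPre X n q) (KS.Kq X q n).2⟩

lemma invKq_toSheafify (U : X.Opens) (a : KS.MK Γ(X, U) n) :
    (invKq X n q).hom.app (op U)
      ((toSheafify (Opens.grothendieckTopology X.toTopCat) (Pool.Agent.H17.KW.KModPre X q n)).app
        (op U) (Pool.Agent.H17.KW.toModQ q _ a)) =
      (KS.toKq X q n).hom.app (op U) ((KS.toShf (KS.KPre X n) U) a) := by
  have h := toSheafify_sheafifyLift (Opens.grothendieckTopology X.toTopCat) (kapPre X n q)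
    (KS.Kq X q n).2
  have h1 := congrArg (fun m => m.app (op U)) h
  exact (ConcreteCategory.congr_hom h1 (Pool.Agent.H17.KW.toModQ q _ a)).trans
    (kapPre_app X n q U a)

/-- `K^M_n / q` as a cokernel is the sheaf associated with `U ↦ K_n(O(U)) / q`. -/
def isoKq : KS.Kq X q n ≅ Pool.Agent.H17.KW.KModSh X q n where
  hom := homKq X n q
  inv := invKq X n q
  hom_inv_id := by
    have hE : Epi (KS.toKq X q n) := inferInstanceAs (Epi (cokernel.π _))
    refine hE.left_cancellation _ _ ?_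
    refine shf_ext X fun U a => ?_
    change (invKq X n q).hom.app (op U) ((KS.toKq X q n ≫ homKq X n q).hom.app (op U)
      ((KS.toShf (KS.KPre X n) U) a)) = (KS.toKq X q n).hom.app (op U)
        ((KS.toShf (KS.KPre X n) U) a)
    rw [toKq_homKq]
    refine Eq.trans ?_ (invKq_toSheafify X n q U a)
    refine congrArg ((invKq X n q).hom.app (op U)) ?_
    exact (congrArg ((modProj X n q).hom.app (op U)) (toShf_isoK X n U a)).trans
      (modProj_toSheafify X n q U a)
  inv_hom_id := by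
    refine Sheaf.hom_ext ?_
    refine sheafify_hom_ext (Opens.grothendieckTopology X.toTopCat) _ _
      (Pool.Agent.H17.KW.KModSh X q n).2 ?_
    refine NatTrans.ext (funext fun U => ?_)
    refine AddCommGrpCat.hom_ext (AddMonoidHom.ext fun x => ?_)
    obtain ⟨a, rfl⟩ := Pool.Agent.H17.KW.toModQ_surjective q _ x
    have h1 := congrArg ((homKq X n q).hom.app U) (invKq_toSheafify X n q U.unop a)
    refine Eq.trans h1 ?_
    have h2 := congrArg (fun m => m.hom.app U) (toKq_homKq X n q)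
    have h3 := ConcreteCategory.congr_hom h2 ((KS.toShf (KS.KPre X n) U.unop) a)
    refine Eq.trans h3 ?_
    exact (congrArg ((modProj X n q).hom.app U) (toShf_isoK X n U.unop a)).trans
      (modProj_toSheafify X n q U.unop a)

lemma toKq_isoKq : KS.toKq X q n ≫ (isoKq X n q).hom = (isoK X n).hom ≫ modProj X n q :=
  toKq_homKq X n q

end sheaf

section push

variable {X Y : Scheme.{u}} (i : Y ⟶ X) (q n : ℕ)

/-- The isomorphism of the direct images. -/
def isoPush : KS.push i (KS.Kq Y q n) ≅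
    Pool.Agent.H17.KW.dirIm i (Pool.Agent.H17.KW.KModSh Y q n) :=
  (TopCat.Sheaf.pushforward AddCommGrpCat.{u} i.base).mapIso (isoKq Y n q)

lemma redSh_toSheafify (U : X.Opens) (a : Pool.Agent.H62.MK.MilnorK Γ(X, U) n) :
    (Pool.Agent.H17.KW.redSh i q n).hom.app (op U)
      ((toSheafify (Opens.grothendieckTopology X.toTopCat) (Pool.Agent.H17.KW.KPre X n)).app
        (op U) a) =
      (toSheafify (Opens.grothendieckTopology Y.toTopCat) (Pool.Agent.H17.KW.KModPre Y q n)).app
        (op (i ⁻¹ᵁ U)) (Pool.Agent.H17.KW.toModQ q _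
          (Pool.Agent.H62.MK.map (i.app U).hom n a)) := by
  have h := toSheafify_sheafifyLift (Opens.grothendieckTopology X.toTopCat)
    (Pool.Agent.H17.KW.redPre i q n)
    (Pool.Agent.H17.KW.dirIm i (Pool.Agent.H17.KW.KModSh Y q n)).2
  have h1 := congrArg (fun m => m.app (op U)) h
  exact ConcreteCategory.congr_hom h1 a

/-- The reduction in terms of the other form. -/
def red' : KS.K X n ⟶ KS.push i (KS.Kq Y q n) :=
  (isoK X n).hom ≫ Pool.Agent.H17.KW.redSh i q n ≫ (isoPush i q n).inv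

lemma red'_spec (U : X.Opens) (a : KS.MK Γ(X, U) n) :
    KS.ap (KS.onSecs (red' i q n) U) (KS.ap (KS.toShf (KS.KPre X n) U) a) =
      KS.ap (KS.onSecs (KS.toKq Y q n) (i ⁻¹ᵁ U)) (KS.ap (KS.toShf (KS.KPre Y n) (i ⁻¹ᵁ U))
        (KS.ap (KS.mkMap (i.app U).hom n) a)) := by
  have h1 := toShf_isoK X n U a
  have h2 := congrArg ((Pool.Agent.H17.KW.redSh i q n).hom.app (op U)) h1
  have h3 := h2.trans (redSh_toSheafify i q n U a)
  have h4 := congrArg ((invKq Y n q).hom.app (op (i ⁻¹ᵁ U))) h3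
  have h5 := invKq_toSheafify Y n q (i ⁻¹ᵁ U) (Pool.Agent.H62.MK.map (i.app U).hom n a)
  have h6 : KS.ap (KS.mkMap (i.app U).hom n) a = Pool.Agent.H62.MK.map (i.app U).hom n a :=
    ConcreteCategory.congr_hom (mkMap_eq (i.app U).hom n) a
  exact (h4.trans h5).trans (congrArg (fun z => (KS.toKq Y q n).hom.app (op (i ⁻¹ᵁ U))
    ((KS.toShf (KS.KPre Y n) (i ⁻¹ᵁ U)) z)) h6.symm)

lemma red_eq : KS.red i q n = red' i q n := by
  have h : ∃ g : KS.K X n ⟶ KS.push i (KS.Kq Y q n), ∀ (U : X.Opens) (a : KS.MK Γ(X, U) n),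
      KS.ap (KS.onSecs g U) (KS.ap (KS.toShf (KS.KPre X n) U) a) =
        KS.ap (KS.onSecs (KS.toKq Y q n) (i ⁻¹ᵁ U)) (KS.ap (KS.toShf (KS.KPre Y n) (i ⁻¹ᵁ U))
          (KS.ap (KS.mkMap (i.app U).hom n) a)) := ⟨red' i q n, red'_spec i q n⟩
  refine shf_ext X fun U a => ?_
  exact (KS.the_spec h U a).trans (red'_spec i q n U a).symm

lemma red_isoPush : KS.red i q n ≫ (isoPush i q n).hom =
    (isoK X n).hom ≫ Pool.Agent.H17.KW.redSh i q n := by
  rw [red_eq]
  unfold red'
  rw [Category.assoc, Category.assoc, Iso.inv_hom_id, Category.comp_id]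

end push

section cohomology

variable {X : Scheme.{u}} {F G F' G' : Pool.Agent.H17.KW.AbSh X}

/-- An isomorphism of sheaves on cohomology. -/
def isoH (φ : F ≅ G) (n : ℕ) : Sheaf.H F n ≃+ Sheaf.H G n where
  toFun := Sheaf.H.map φ.hom n
  invFun := Sheaf.H.map φ.inv n
  left_inv y := by
    rw [← Sheaf.H.map_comp_apply, Iso.hom_inv_id, Sheaf.H.map_id_apply]
  right_inv y := by
    rw [← Sheaf.H.map_comp_apply, Iso.inv_hom_id, Sheaf.H.map_id_apply]
  map_add' := map_add _

lemma isoH_apply (φ : F ≅ G) (n : ℕ) (y : Sheaf.H F n) : isoH φ n y = Sheaf.H.map φ.hom n y := rfl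

/-- A commutative square on cohomology. -/
lemma isoH_square (a : F ≅ F') (b : G ≅ G') (g : F ⟶ G) (g' : F' ⟶ G')
    (h : g ≫ b.hom = a.hom ≫ g') (n : ℕ) (y : Sheaf.H F n) :
    isoH b n (Sheaf.H.map g n y) = Sheaf.H.map g' n (isoH a n y) := by
  rw [isoH_apply, isoH_apply, ← Sheaf.H.map_comp_apply, ← Sheaf.H.map_comp_apply, h]

end cohomology

section thick

variable {A : Type u} [CommRing A] [IsLocalRing A] {X : Scheme.{u}}
  (f : X ⟶ Spec (CommRingCat.of A)) (q m n : ℕ)

/-- The two forms of the sheaf `i_* (K^M_{m,X_n} / q)`. -/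
def isoFn : KS.Fn f q m n ≅ Pool.Agent.H17.KW.Fsh f q m n :=
  isoPush (KS.thickι f n) q m

lemma red_isoFn : KS.red (KS.thickι f n) q m ≫ (isoFn f q m n).hom =
    (isoK X m).hom ≫ Pool.Agent.H17.KW.redSh (Pool.Agent.H17.KW.thickι f n) q m :=
  red_isoPush (KS.thickι f n) q m

/-- The reduction on cohomology. -/
lemma onH_red (k : ℕ) (y : Sheaf.H (KS.K X m) k) :
    isoH (isoFn f q m n) k (Sheaf.H.map (KS.red (KS.thickι f n) q m) k y) =
      Sheaf.H.map (Pool.Agent.H17.KW.redSh (Pool.Agent.H17.KW.thickι f n) q m) k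
        (isoH (isoK X m) k y) :=
  isoH_square (isoK X m) (isoFn f q m n) _ _ (red_isoFn f q m n) k y

end thick

end

end Pool.Agent.H84.KB
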